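import Pool.Agent.RBGrassmann.Proof

set_option autoImplicit false

namespace Pool.Agent.Results.MP_160e58_al.GrassmannRBIndex

open Pool.Agent.RBGrassmann

/-- Over a field `F` of characteristic `0`, for every `n ≥ 1`, the Rota–Baxter index of the
Grassmann algebra `Gr_n` on `n` generators is `max n 2`. -/
theorem result (F : Type*) [Field F] [CharZero F] (n : ℕ) (hn : 1 ≤ n) :
    IsRBIndex F (ExteriorAlgebra F (Fin n → F)) (max n 2) :=
  rbIndex F n hn

end Pool.Agent.Results.MP_160e58_al.GrassmannRBIndex
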